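import Pool.Agent.BE01.Stmts

/-!
# Squad BE01, module STP: from one order to the next
-/

namespace Pool.Agent.Helper27_BE01

open Set Filter Topology Pool.Agent.BE01
open scoped InnerProductSpace

noncomputable section

section gen

variable {M : Type} [NormedAddCommGroup M] [NormedSpace ℝ M]

theorem pp_mono {α c c' : ℕ} (h : c ≤ c') {P : ℝ → ℝ → M} (hP : P ∈ PP M α c) :
    P ∈ PP M α c' := by
  refine Submodule.span_mono ?_ hP
  rintro P ⟨k, j, hj, m, hm⟩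
  exact ⟨k, j, by omega, m, hm⟩

theorem one_mem {X : Type} [NormedCommRing X] [NormedAlgebra ℝ X] (α : ℕ) :
    (fun _ _ => (1 : X)) ∈ PP X α 0 := by
  refine Submodule.subset_span ⟨0, 0, by omega, 1, Or.inl ?_⟩
  funext ψ δ
  simp

theorem dps_add (hDER : DerStmt) {α c : ℕ} {P P' : ℝ → ℝ → M} (hP : P ∈ PP M α c)
    (hP' : P' ∈ PP M α c) (ψ δ : ℝ) :
    dps (fun ψ δ => P ψ δ + P' ψ δ) ψ δ = dps P ψ δ + dps P' ψ δ := by
  obtain ⟨_, _, _, h1, _, _⟩ := hDER M α c P hP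
  obtain ⟨_, _, _, h2, _, _⟩ := hDER M α c P' hP'
  exact ((h1 ψ δ).add (h2 ψ δ)).deriv

theorem ddl_add (hDER : DerStmt) {α c : ℕ} {P P' : ℝ → ℝ → M} (hP : P ∈ PP M α c)
    (hP' : P' ∈ PP M α c) (ψ δ : ℝ) :
    ddl (fun ψ δ => P ψ δ + P' ψ δ) ψ δ = ddl P ψ δ + ddl P' ψ δ := by
  obtain ⟨_, _, _, _, h1, _⟩ := hDER M α c P hP
  obtain ⟨_, _, _, _, h2, _⟩ := hDER M α c P' hP'
  unfold ddl
  rw [← smul_add]
  congr 1
  exact ((h1 ψ δ).hasDerivAt.add (h2 ψ δ).hasDerivAt).deriv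

theorem dd_add (hDER : DerStmt) {α c : ℕ} (ω : ℝ) (a b : Polynomial ℝ) {P P' : ℝ → ℝ → M}
    (hP : P ∈ PP M α c) (hP' : P' ∈ PP M α c) (ψ δ : ℝ) :
    DD α ω a b (fun ψ δ => P ψ δ + P' ψ δ) ψ δ = DD α ω a b P ψ δ + DD α ω a b P' ψ δ := by
  unfold DD
  rw [dps_add hDER hP hP', ddl_add hDER hP hP']
  module

theorem dd_plus (α N : ℕ) (ω a' b' : ℝ) (a b : Polynomial ℝ) (P : ℝ → ℝ → M) (ψ δ : ℝ) :
    DD α ω (a + Polynomial.monomial N a') (b + Polynomial.monomial N b') P ψ δ =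
      DD α ω a b P ψ δ + δ ^ N • (a' • (P ψ δ + (α : ℝ) • ddl P ψ δ) + b' • dps P ψ δ) := by
  unfold DD
  rw [Polynomial.eval_add, Polynomial.eval_add, Polynomial.eval_monomial,
    Polynomial.eval_monomial]
  module

/-- One step: the operator with the new coefficients applied to `G + δ^N G'`. -/
theorem dd_step (hDER : DerStmt) (hPLY : PlyStmt) {α c : ℕ} (N : ℕ) (ω a' b' : ℝ)
    (a b : Polynomial ℝ) {G G' : ℝ → ℝ → M} (hG : G ∈ PP M α c) (hG' : G' ∈ PP M α c)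
    (hN : (fun ψ δ => δ ^ N • G' ψ δ) ∈ PP M α c) (ψ δ : ℝ) :
    DD α ω (a + Polynomial.monomial N a') (b + Polynomial.monomial N b')
      (fun ψ δ => G ψ δ + δ ^ N • G' ψ δ) ψ δ = DD α ω a b G ψ δ + δ ^ N •
      (a' • (G ψ δ + (α : ℝ) • ddl G ψ δ) + b' • dps G ψ δ +
        DD α ω (a + Polynomial.monomial N a') (b + Polynomial.monomial N b') G' ψ δ +
        ((α : ℝ) * N * (a + Polynomial.monomial N a').eval δ) • G' ψ δ) := by
  rw [dd_add hDER ω _ _ hG hN, dd_plus]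
  obtain ⟨_, _, _, h⟩ := hPLY M α c ω (a + Polynomial.monomial N a')
    (b + Polynomial.monomial N b') G' hG'
  rw [h N ψ δ]
  module

/-- The coefficient of `δ^N` after one step. -/
def zf (α N : ℕ) (ω a' b' : ℝ) (a b : Polynomial ℝ) (G G' : ℝ → ℝ → M) (ψ δ : ℝ) : M :=
  a' • (G ψ δ + (α : ℝ) • ddl G ψ δ) + b' • dps G ψ δ +
    DD α ω (a + Polynomial.monomial N a') (b + Polynomial.monomial N b') G' ψ δ +
    ((α : ℝ) * N * (a + Polynomial.monomial N a').eval δ) • G' ψ δ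

theorem zf_mem (hDER : DerStmt) (hPLY : PlyStmt) {α c : ℕ} (N : ℕ) (ω a' b' : ℝ)
    (a b : Polynomial ℝ) {G G' : ℝ → ℝ → M} (hG : G ∈ PP M α c) (hG' : G' ∈ PP M α c) :
    zf α N ω a' b' a b G G' ∈ PP M α c := by
  obtain ⟨h1, h2, _⟩ := hDER M α c G hG
  obtain ⟨h3, h4, _⟩ := hPLY M α c ω (a + Polynomial.monomial N a')
    (b + Polynomial.monomial N b') G' hG'
  have h5 := Submodule.add_mem _ (Submodule.add_mem _ (Submodule.add_mem _
    (Submodule.smul_mem _ a' (Submodule.add_mem _ hG (Submodule.smul_mem _ (α : ℝ) h2)))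
    (Submodule.smul_mem _ b' h1)) h4) (Submodule.smul_mem _ ((α : ℝ) * N) h3)
  have h6 : zf α N ω a' b' a b G G' = a' • (G + (α : ℝ) • ddl G) + b' • dps G +
      DD α ω (a + Polynomial.monomial N a') (b + Polynomial.monomial N b') G' +
      ((α : ℝ) * N) • (fun ψ δ => (a + Polynomial.monomial N a').eval δ • G' ψ δ) := by
    funext ψ δ
    simp only [zf, Pi.add_apply, Pi.smul_apply, smul_smul]
  rw [h6]
  exact h5

theorem zf_zero {α N : ℕ} (hN : N ≠ 0) (ω a' b' : ℝ) {a b : Polynomial ℝ}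
    (ha : a.eval 0 = 0) (hb : b.eval 0 = 0) (G G' : ℝ → ℝ → M) (ψ : ℝ) :
    zf α N ω a' b' a b G G' ψ 0 = a' • G ψ 0 + b' • dps G ψ 0 + ω • dps G' ψ 0 := by
  unfold zf DD ddl
  rw [Polynomial.eval_add, Polynomial.eval_add, Polynomial.eval_monomial,
    Polynomial.eval_monomial, ha, hb, zero_pow hN]
  simp

theorem del_mem (hPRM : PrmStmt) {α c N : ℕ} {G : ℝ → ℝ → M} (hG : G ∈ PP M α (c + α * N)) :
    (fun ψ δ => δ ^ N • G ψ δ) ∈ PP M α c :=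
  (hPRM M M (ContinuousLinearMap.id ℝ M) α (c + α * N)).1 c N G hG le_rfl

theorem pow_mem {X : Type} [NormedCommRing X] [NormedAlgebra ℝ X] (hPRD : PrdStmt) {α : ℕ}
    {G : ℝ → ℝ → X} (hG : G ∈ PP X α 1) (i : ℕ) : (fun ψ δ => G ψ δ ^ i) ∈ PP X α i := by
  induction i with
  | zero =>
    simp only [pow_zero]
    exact one_mem α
  | succ i ih =>
    have h := hPRD X X X (ContinuousLinearMap.mul ℝ X) α i 1 _ _ ih hG
    have h2 : (fun ψ δ => G ψ δ ^ (i + 1)) =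
        fun ψ δ => (ContinuousLinearMap.mul ℝ X) (G ψ δ ^ i) (G ψ δ) := by
      funext ψ δ
      rw [ContinuousLinearMap.mul_apply', pow_succ]
    rw [h2]
    exact h

theorem od_pow {X : Type} [NormedCommRing X] {x y : X} (h : x = -y) (p : ℕ) :
    x ^ (2 * p + 1) = - y ^ (2 * p + 1) := by
  rw [h, Odd.neg_pow ⟨p, rfl⟩]

/-- Oddness from oddness of `δ^m Q`. -/
theorem od_of (hDER : DerStmt) {α c m : ℕ} {Q : ℝ → ℝ → M} (hQ : Q ∈ PP M α c)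
    (h : ∀ ψ δ, δ ^ m • Q (ψ + Real.pi) δ = -(δ ^ m • Q ψ δ)) : Od Q := by
  obtain ⟨_, _, _, _, h1, _⟩ := hDER M α c Q hQ
  intro ψ
  have hc1 : Continuous fun δ => Q (ψ + Real.pi) δ :=
    continuous_iff_continuousAt.2 fun δ => (h1 (ψ + Real.pi) δ).continuousAt
  have hc2 : Continuous fun δ => - Q ψ δ :=
    continuous_iff_continuousAt.2 fun δ => (h1 ψ δ).continuousAt.neg
  have h2 := Continuous.ext_on (dense_compl_singleton (0 : ℝ)) hc1 hc2 (by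
    intro δ hδ
    have h3 : δ ^ m ≠ 0 := pow_ne_zero m hδ
    have h4 := h ψ δ
    rw [← smul_neg] at h4
    exact smul_right_injective M h3 h4)
  intro δ
  exact congrFun h2 δ

end gen

/-- STP. -/
theorem stp (hPRD : PrdStmt) (hPRM : PrmStmt) (hDER : DerStmt) (hPLY : PlyStmt)
    (hRES : ResStmt) : StpStmt := by
  intro X Y H _ _ _ _ _ _ A W p a0 ω φ K a b P q Q hp hω hφ hSφ hSlv hApx
  obtain ⟨ha0, hb0, hq, hqo, hP, hq0, hQ, hQo, hres⟩ := hApx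
  obtain ⟨α, hα⟩ : ∃ α : ℕ, α = 2 * p := ⟨_, rfl⟩
  obtain ⟨N, hN⟩ : ∃ N : ℕ, N = K + 1 := ⟨_, rfl⟩
  have hN0 : N ≠ 0 := by omega
  rw [← hα] at hq
  rw [← hα, ← hN] at hQ hSlv
  -- the order K + 1 equation
  have hF : (fun ψ => Q ψ 0) ∈ TP H (1 + α * N) :=
    ((hPRM H H (ContinuousLinearMap.id ℝ H) α (1 + α * N)).2.2 Q hQ).2.1
  obtain ⟨b', qU, qU1, qU2, hqU, hqUo, hqU1, hqU2, hR⟩ := hRES H W.S ω φ (1 + α * N) hω hφ hSlv
    (fun ψ => Q ψ 0) hF (fun ψ => hQo ψ 0)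
  obtain ⟨a', ha'⟩ : ∃ a' : ℝ, a' = sc φ (fun ψ => Q ψ 0) / (2 * ω) := ⟨_, rfl⟩
  have hsc : sc φ (fun ψ => Q ψ 0) = 2 * ω * a' := by
    rw [ha']
    field_simp
  rw [hsc] at hR
  obtain ⟨φX, hφX⟩ : ∃ φX : X, φX = W.SX ((ω ^ 2) • φ) := ⟨_, rfl⟩
  have heφ : A.e φX = φ := by
    rw [hφX, W.e_SX, map_smul, hSφ]
  have hqUt : (fun ψ (_ : ℝ) => qU ψ) ∈ PP H α (1 + α * N) := by
    have h := (hPRM H H (ContinuousLinearMap.id ℝ H) α (1 + α * N)).2.1 0 qU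
      (by simpa using hqU)
    simpa using h
  obtain ⟨U, hU⟩ : ∃ U : ℝ → ℝ → X, U = fun ψ (_ : ℝ) => W.SX (qU ψ) := ⟨_, rfl⟩
  have hUm : U ∈ PP X α (1 + α * N) := by
    rw [hU]
    exact ((hPRM H X W.SX α (1 + α * N)).2.2 _ hqUt).1
  have hPm : P ∈ PP X α 1 := by
    have h : P = fun ψ δ => W.SX (q ψ δ) := by
      funext ψ δ
      exact hP ψ δ
    rw [h]
    exact ((hPRM H X W.SX α 1).2.2 _ hq).1
  have hle : 1 ≤ 1 + α * N := by omega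
  -- the first derivative
  obtain ⟨D1, hD1⟩ : ∃ D1 : ℝ → ℝ → X, D1 = DD α ω a b P := ⟨_, rfl⟩
  have hD1m : D1 ∈ PP X α 1 := by
    rw [hD1]
    exact (hPLY X α 1 ω a b P hPm).2.1
  obtain ⟨Z, hZ⟩ : ∃ Z : ℝ → ℝ → X, Z = zf α N ω a' b' a b P U := ⟨_, rfl⟩
  have hZm : Z ∈ PP X α (1 + α * N) := by
    rw [hZ]
    exact zf_mem hDER hPLY N ω a' b' a b (pp_mono hle hPm) hUm
  obtain ⟨P', hP'⟩ : ∃ P' : ℝ → ℝ → X, P' = fun ψ δ => P ψ δ + δ ^ N • U ψ δ := ⟨_, rfl⟩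
  have hP'm : P' ∈ PP X α 1 := by
    rw [hP']
    exact Submodule.add_mem _ hPm (del_mem hPRM hUm)
  have hE1 : DD α ω (a + Polynomial.monomial N a') (b + Polynomial.monomial N b') P' =
      fun ψ δ => D1 ψ δ + δ ^ N • Z ψ δ := by
    funext ψ δ
    rw [hP', dd_step hDER hPLY N ω a' b' a b (pp_mono hle hPm) hUm
      (pp_mono hle (del_mem hPRM hUm)), hD1, hZ]
    rfl
  -- the second derivative
  obtain ⟨Z2, hZ2⟩ : ∃ Z2 : ℝ → ℝ → X, Z2 = zf α N ω a' b' a b D1 Z := ⟨_, rfl⟩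
  have hZ2m : Z2 ∈ PP X α (1 + α * N) := by
    rw [hZ2]
    exact zf_mem hDER hPLY N ω a' b' a b (pp_mono hle hD1m) hZm
  have hE2 : DD α ω (a + Polynomial.monomial N a') (b + Polynomial.monomial N b')
      (DD α ω (a + Polynomial.monomial N a') (b + Polynomial.monomial N b') P') =
      fun ψ δ => DD α ω a b D1 ψ δ + δ ^ N • Z2 ψ δ := by
    funext ψ δ
    rw [hE1, dd_step hDER hPLY N ω a' b' a b (pp_mono hle hD1m) hZm
      (pp_mono hle (del_mem hPRM hZm)), hZ2]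
    rfl
  -- values at δ = 0
  have hP0 : ∀ ψ, P ψ 0 = Real.cos ψ • φX := by
    intro ψ
    rw [hP, hq0, hφX, map_smul, map_smul, smul_smul, mul_comm]
  have hdP0 : ∀ ψ, dps P ψ 0 = (-Real.sin ψ) • φX := by
    intro ψ
    have h : (fun s => P s 0) = fun s => Real.cos s • φX := funext hP0
    show deriv (fun s => P s 0) ψ = _
    rw [h]
    exact ((Real.hasDerivAt_cos ψ).smul_const φX).deriv
  have hD10 : ∀ ψ, D1 ψ 0 = (-(ω * Real.sin ψ)) • φX := by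
    intro ψ
    rw [hD1]
    unfold DD
    rw [ha0, hb0, hdP0]
    module
  have hdD10 : ∀ ψ, dps D1 ψ 0 = (-(ω * Real.cos ψ)) • φX := by
    intro ψ
    have h : (fun s => D1 s 0) = fun s => (-(ω * Real.sin s)) • φX := funext hD10
    show deriv (fun s => D1 s 0) ψ = _
    rw [h]
    exact (((Real.hasDerivAt_sin ψ).const_mul ω).neg.smul_const φX).deriv
  have hdU : ∀ ψ, dps U ψ 0 = W.SX (qU1 ψ) := by
    intro ψ
    rw [hU]
    exact (W.SX.hasFDerivAt.comp_hasDerivAt ψ (hqU1 ψ)).deriv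
  have hZ0 : ∀ ψ, Z ψ 0 = (a' * Real.cos ψ) • φX + (b' * -Real.sin ψ) • φX +
      ω • W.SX (qU1 ψ) := by
    intro ψ
    rw [hZ, zf_zero hN0 ω a' b' ha0 hb0, hP0, hdP0, hdU, smul_smul, smul_smul]
  have hdZ0 : ∀ ψ, dps Z ψ 0 = (a' * -Real.sin ψ) • φX + (b' * -Real.cos ψ) • φX +
      ω • W.SX (qU2 ψ) := by
    intro ψ
    have h : (fun s => Z s 0) = fun s => (a' * Real.cos s) • φX + (b' * -Real.sin s) • φX +
        ω • W.SX (qU1 s) := funext hZ0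
    show deriv (fun s => Z s 0) ψ = _
    rw [h]
    exact (((((Real.hasDerivAt_cos ψ).const_mul a').smul_const φX).add
      (((Real.hasDerivAt_sin ψ).neg.const_mul b').smul_const φX)).add
      ((W.SX.hasFDerivAt.comp_hasDerivAt ψ (hqU2 ψ)).const_smul ω)).deriv
  have hZ20 : ∀ ψ, Z2 ψ 0 = a' • D1 ψ 0 + b' • dps D1 ψ 0 + ω • dps Z ψ 0 := by
    intro ψ
    rw [hZ2, zf_zero hN0 ω a' b' ha0 hb0]
  have heZ2 : ∀ ψ, A.e (Z2 ψ 0) = (-(2 * ω * a' * Real.sin ψ)) • φ +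
      (-(2 * ω * b' * Real.cos ψ)) • φ + (ω ^ 2) • W.S (qU2 ψ) := by
    intro ψ
    rw [hZ20, hD10, hdD10, hdZ0]
    simp only [map_add, map_smul, heφ, W.e_SX]
    module
  -- the bracket
  obtain ⟨Br, hBr⟩ : ∃ Br : ℝ → ℝ → H, Br = fun ψ δ => Q ψ δ + A.e (Z2 ψ δ) + qU ψ := ⟨_, rfl⟩
  have hBrm : Br ∈ PP H α (1 + α * N) := by
    rw [hBr]
    exact Submodule.add_mem _ (Submodule.add_mem _ hQ
      ((hPRM X H A.e α (1 + α * N)).2.2 _ hZ2m).1) hqUt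
  have hBr0 : ∀ ψ, Br ψ 0 = 0 := by
    intro ψ
    have h := hR ψ
    have h2 : (ω ^ 2) • W.S (qU2 ψ) + qU ψ = - (Q ψ 0 - (2 * ω * b' * Real.cos ψ) • φ -
        (2 * ω * a' * Real.sin ψ) • φ) := h
    rw [hBr]
    simp only
    rw [heZ2]
    calc Q ψ 0 + ((-(2 * ω * a' * Real.sin ψ)) • φ + (-(2 * ω * b' * Real.cos ψ)) • φ +
          (ω ^ 2) • W.S (qU2 ψ)) + qU ψ
        = Q ψ 0 - (2 * ω * b' * Real.cos ψ) • φ - (2 * ω * a' * Real.sin ψ) • φ +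
          ((ω ^ 2) • W.S (qU2 ψ) + qU ψ) := by module
      _ = 0 := by rw [h2]; abel
  obtain ⟨Qt, hQtm, hQt⟩ := ((hPRM H H (ContinuousLinearMap.id ℝ H) α (1 + α * N)).2.2 Br hBrm).2.2
  -- the difference of the powers
  obtain ⟨E1, hE1d⟩ : ∃ E1 : ℝ → ℝ → X, E1 = fun ψ δ => D1 ψ δ + δ ^ N • Z ψ δ := ⟨_, rfl⟩
  have hE1m : E1 ∈ PP X α 1 := by
    rw [hE1d]
    exact Submodule.add_mem _ hD1m (del_mem hPRM hZm)
  obtain ⟨Sg, hSg⟩ : ∃ Sg : ℝ → ℝ → X, Sg = fun ψ δ =>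
      ∑ i ∈ Finset.range (2 * p + 1), E1 ψ δ ^ i * D1 ψ δ ^ (2 * p + 1 - 1 - i) := ⟨_, rfl⟩
  have hSgm : Sg ∈ PP X α (2 * p) := by
    have h1 : Sg = ∑ i ∈ Finset.range (2 * p + 1),
        (fun ψ δ => E1 ψ δ ^ i * D1 ψ δ ^ (2 * p + 1 - 1 - i)) := by
      rw [hSg]
      funext ψ δ
      rw [Finset.sum_apply, Finset.sum_apply]
    rw [h1]
    refine Submodule.sum_mem _ fun i hi => ?_
    rw [Finset.mem_range] at hi
    have h2 := hPRD X X X (ContinuousLinearMap.mul ℝ X) α i (2 * p + 1 - 1 - i) _ _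
      (pow_mem hPRD hE1m i) (pow_mem hPRD hD1m (2 * p + 1 - 1 - i))
    have h3 : i + (2 * p + 1 - 1 - i) = 2 * p := by omega
    rw [h3] at h2
    exact h2
  have hSgZ : (fun ψ δ => Sg ψ δ * Z ψ δ) ∈ PP X α (2 * p + (1 + α * N)) :=
    hPRD X X X (ContinuousLinearMap.mul ℝ X) α (2 * p) (1 + α * N) _ _ hSgm hZm
  have hpow : ∀ ψ δ, E1 ψ δ ^ (2 * p + 1) - D1 ψ δ ^ (2 * p + 1) =
      δ ^ N • (Sg ψ δ * Z ψ δ) := by
    intro ψ δ
    rw [← geom_sum₂_mul, hSg, ← mul_smul_comm]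
    congr 1
    rw [hE1d]
    simp
  obtain ⟨Q', hQ'⟩ : ∃ Q' : ℝ → ℝ → H, Q' = fun ψ δ =>
      Qt ψ δ + a0 • A.e (Sg ψ δ * Z ψ δ) := ⟨_, rfl⟩
  have hQ'm : Q' ∈ PP H α (1 + α * (N + 1)) := by
    rw [hQ']
    refine Submodule.add_mem _ (pp_mono (le_of_eq (by ring)) hQtm) ?_
    refine Submodule.smul_mem _ a0 ?_
    refine pp_mono (le_of_eq ?_) ((hPRM X H A.e α (2 * p + (1 + α * N))).2.2 _ hSgZ).1
    rw [← hα]
    ring
  obtain ⟨q', hq'⟩ : ∃ q' : ℝ → ℝ → H, q' = fun ψ δ => q ψ δ + δ ^ N • qU ψ := ⟨_, rfl⟩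
  have hq'm : q' ∈ PP H α 1 := by
    rw [hq']
    exact Submodule.add_mem _ hq (del_mem hPRM hqUt)
  -- the residual
  have hres' : ∀ ψ δ, Rsd A p a0 ω (a + Polynomial.monomial N a') (b + Polynomial.monomial N b')
      P' q' ψ δ = δ ^ (N + 1) • Q' ψ δ := by
    intro ψ δ
    have h1 := hres ψ δ
    unfold Rsd at h1 ⊢
    rw [← hα] at h1 ⊢
    rw [hE2, hE1, ← hD1] at *
    rw [← hN] at h1
    have h2 := hQt ψ δ
    rw [hBr0, zero_add, hBr] at h2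
    simp only at h2
    have h3 := hpow ψ δ
    rw [← hα, hE1d] at h3
    simp only at h3
    have h4 : (D1 ψ δ + δ ^ N • Z ψ δ) ^ (α + 1) = D1 ψ δ ^ (α + 1) +
        δ ^ N • (Sg ψ δ * Z ψ δ) := by
      rw [← h3]
      abel
    rw [hq', hQ']
    simp only
    rw [h4, map_add, map_add, map_smul, map_smul]
    have h5 : δ ^ (N + 1) • (Qt ψ δ + a0 • A.e (Sg ψ δ * Z ψ δ)) =
        δ ^ N • (δ • Qt ψ δ) + (a0 * δ) • (δ ^ N • A.e (Sg ψ δ * Z ψ δ)) := by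
      rw [pow_succ]
      module
    rw [h5, ← h2]
    have h6 : A.e (DD α ω a b D1 ψ δ) + q ψ δ + (a0 * δ) • A.e (D1 ψ δ ^ (α + 1)) =
        δ ^ N • Q ψ δ := h1
    have h7 : A.e (DD α ω a b D1 ψ δ) = δ ^ N • Q ψ δ - q ψ δ -
        (a0 * δ) • A.e (D1 ψ δ ^ (α + 1)) := by
      rw [← h6]
      abel
    rw [h7]
    module
  -- oddness
  have hq'o : Od q' := by
    intro ψ δ
    rw [hq']
    simp only
    rw [hqo, hqUo]
    module
  have hP'q : ∀ ψ δ, P' ψ δ = W.SX (q' ψ δ) := by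
    intro ψ δ
    rw [hP', hq', hU]
    simp only
    rw [map_add, map_smul, hP]
  have hP'o : Od P' := by
    intro ψ δ
    rw [hP'q, hP'q, hq'o, map_neg]
  have hQ'o : Od Q' := by
    refine od_of hDER hQ'm (m := N + 1) ?_
    intro ψ δ
    rw [← hres', ← hres']
    obtain ⟨_, h1, h2, _⟩ := hPLY X α 1 ω (a + Polynomial.monomial N a')
      (b + Polynomial.monomial N b') P' hP'm
    obtain ⟨_, h3, h4, _⟩ := hPLY X α 1 ω (a + Polynomial.monomial N a')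
      (b + Polynomial.monomial N b') _ h1
    have h5 := h2 hP'o
    have h6 := h4 h5
    unfold Rsd
    rw [← hα, h6 ψ δ, hq'o ψ δ, h5 ψ δ, hα, od_pow rfl]
    simp only [map_neg, smul_neg]
    abel
  refine ⟨b', P', q', Q', ?_⟩
  rw [← ha', ← hN]
  refine ⟨?_, ?_, ?_, hq'o, hP'q, ?_, ?_, hQ'o, ?_⟩
  · rw [Polynomial.eval_add, ha0, Polynomial.eval_monomial, zero_pow hN0]
    simp
  · rw [Polynomial.eval_add, hb0, Polynomial.eval_monomial, zero_pow hN0]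
    simp
  · rw [← hα]
    exact hq'm
  · intro ψ
    rw [hq']
    simp only
    rw [hq0, zero_pow hN0, zero_smul, add_zero]
  · rw [← hα]
    exact hQ'm
  · exact hres'

end

end Pool.Agent.Helper27_BE01
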